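import Pool.Agent.Q217.CR.Main

set_option autoImplicit false

/-!
# (B1) implies (A1)

If the average plain complexity of the measure `μ` at length `n` is infinitely often maximal up
to a constant, then so is its average prefix-free complexity.

Idea. We compute weights `w_n = 2 ^ (-i_n)` of the lengths with a finite sum (so that
`K(n) ≤ i_n + O(1)`) and a sequence of events `E_k`, where `E_k` is the set of the sequences `X`
for which some weighted average of `2 ^ ((j + i_j - K(X↾j)) / 2)`, `m ≤ j < N`, is larger than
`4 ^ k`, such that the sequences in `E_k` have `C(X↾n) ≤ n - k / 2 + O(1)` for all large `n`. If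
(B1) holds then `∑ k, μ (E_k)` is finite by Fatou's lemma, and so the weighted averages of
`∫ (j + i_j - K(X↾j)) dμ` are bounded, which gives (A1). The weights are halved at the stages
`n` at which certain sets of strings of length `n` are small; a Lindley type recursion (one-sided
maximal inequality) shows that the sum of the weights is finite.
-/

namespace Pool.Agent.Results.MP_018646_lc.B1ImpliesA1

open MeasureTheory Q217.KT

/-- The property (B1) for the plain complexity defined by `V`: there is `c` such that
`C(μ↾n) ≥ n - c` for infinitely many `n`. -/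
def B1 (V : List Bool →. List Bool) (μ : Measure (ℕ → Bool)) : Prop :=
  ∃ c : ℝ, {n : ℕ | (n : ℝ) - c ≤ avg V μ n}.Infinite

/-- The property (A1) for the prefix-free complexity defined by `U`: there is `c` such that
`K(μ↾n) ≥ n + K(n) - c` for infinitely many `n`. -/
def A1 (U : List Bool →. List Bool) (μ : Measure (ℕ → Bool)) : Prop :=
  ∃ c : ℝ, {n : ℕ | (n : ℝ) + (cx U (natStr n) : ℝ) - c ≤ avg U μ n}.Infinite

/-- Let `V` be an optimal plain machine (defining `C`) and `U` an optimal prefix-free machine
(defining `K`). Every Borel probability measure on Cantor space satisfying (B1) satisfies (A1). -/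
theorem result (V U : List Bool →. List Bool) (hV : OptimalPlain V) (hU : OptimalPrefixFree U)
    (μ : Measure (ℕ → Bool)) (pμ : IsProbabilityMeasure μ) (h : B1 V μ) : A1 U μ := by
  obtain ⟨c, hc⟩ := h
  obtain ⟨d, hd⟩ := Q217.CR.b1_a1 hV hU μ ⟨c, Nat.frequently_atTop_iff_infinite.2 hc⟩
  exact ⟨d, Nat.frequently_atTop_iff_infinite.1 hd⟩

end Pool.Agent.Results.MP_018646_lc.B1ImpliesA1
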