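import Pool.Agent.Q217.CB.Main

set_option autoImplicit false

/-!
# (B2) implies (A2)

If the average plain complexity of the measure `μ` is maximal up to a constant at all lengths,
then so is its average prefix-free complexity.

Idea. Given a length `n`, let `m ≥ n` code `n` and a list of the strings of length `n` in the
order of increasing `K`. If `K(x) ≤ n + K(n) - d` then, by the counting theorem, the index of `x`
in this list is less than `2 ^ (n - d + O(1))`; hence all strings `y` of length `m` extending `x`
have `C(y) ≤ m - d / 2 + O(1)`. So the average of `n + K(n) - K(x)` over the strings `x` of length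
`n` is bounded in terms of the difference `m - C(μ↾m)`, which is bounded by (B2).
-/

namespace Pool.Agent.Results.MP_018646_lc.B2ImpliesA2

open MeasureTheory Q217.KT

/-- The property (B2) for the plain complexity defined by `V`: there is `c` such that
`C(μ↾n) ≥ n - c` for all `n`. -/
def B2 (V : List Bool →. List Bool) (μ : Measure (ℕ → Bool)) : Prop :=
  ∃ c : ℝ, ∀ n : ℕ, (n : ℝ) - c ≤ avg V μ n

/-- The property (A2) for the prefix-free complexity defined by `U`: there is `c` such that
`K(μ↾n) ≥ n + K(n) - c` for all `n`. -/
def A2 (U : List Bool →. List Bool) (μ : Measure (ℕ → Bool)) : Prop :=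
  ∃ c : ℝ, ∀ n : ℕ, (n : ℝ) + (cx U (natStr n) : ℝ) - c ≤ avg U μ n

/-- Let `V` be an optimal plain machine (defining `C`) and `U` an optimal prefix-free machine
(defining `K`). Every Borel probability measure on Cantor space satisfying (B2) satisfies (A2). -/
theorem result (V U : List Bool →. List Bool) (hV : OptimalPlain V) (hU : OptimalPrefixFree U)
    (μ : Measure (ℕ → Bool)) (pμ : IsProbabilityMeasure μ) (h : B2 V μ) : A2 U μ :=
  Q217.CB.b2_a2 hV hU μ h

end Pool.Agent.Results.MP_018646_lc.B2ImpliesA2
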